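import Mathlib

set_option autoImplicit false

/-!
# The extremal points with polynomial solutions in the Josephson model are never collinear

For `l = 1, 2, 3` the largest `A ` is `1`, `√(1 + 2ω)` and `√(1 + 2ωκ)` with `κ > 2`,
`κ³ - 4κ = 8ω`.
-/

open Polynomial Set

namespace Pool.Agent.Results.MP_e0279d_an.NeverCollinear

/-- The left-hand side of the double confluent Heun equation
`z² E'' + ((1 - l) z + μ (1 - z²)) E' + (lam + μ (l - 1) z) E = 0` for a polynomial `E`. -/
noncomputable def heun (l μ lam : ℝ) (E : ℂ[X]) : ℂ[X] :=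
  X ^ 2 * derivative (derivative E) +
    (C ((1 - l : ℝ) : ℂ) * X + C (μ : ℂ) * (1 - X ^ 2)) * derivative E +
    (C (lam : ℂ) + C ((μ * (l - 1) : ℝ) : ℂ) * X) * E

/-- The `A`-coordinates of the points of the line `{B = l ω}` at which the equation, with
`μ = A / (2ω)` and `λ = 1/(4ω²) - μ²`, has a nonzero polynomial solution. -/
def polyPoints (ω : ℝ) (l : ℕ) : Set ℝ :=
  {A | ∃ E : ℂ[X], E ≠ 0 ∧ heun l (A / (2 * ω)) (1 / (4 * ω ^ 2) - (A / (2 * ω)) ^ 2) E = 0}

lemma coeff_zero (l μ lam : ℝ) (E : ℂ[X]) :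
    (heun l μ lam E).coeff 0 = lam * E.coeff 0 + μ * E.coeff 1 := by
  have e1 : (X ^ 2 * derivative (derivative E)).coeff 0 = 0 := by
    rw [pow_two, mul_assoc, coeff_X_mul_zero]
  have e2 : (C ((1 - l : ℝ) : ℂ) * X * derivative E).coeff 0 = 0 := by
    rw [mul_assoc, coeff_C_mul, coeff_X_mul_zero, mul_zero]
  have e3 : (C (μ : ℂ) * (X ^ 2 * derivative E)).coeff 0 = 0 := by
    rw [coeff_C_mul, pow_two, mul_assoc, coeff_X_mul_zero, mul_zero]
  have e4 : (C ((μ * (l - 1) : ℝ) : ℂ) * (X * E)).coeff 0 = 0 := by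
    rw [coeff_C_mul, coeff_X_mul_zero, mul_zero]
  have e : heun l μ lam E = X ^ 2 * derivative (derivative E) + C ((1 - l : ℝ) : ℂ) * X * derivative E
      + C (μ : ℂ) * derivative E - C (μ : ℂ) * (X ^ 2 * derivative E) + C (lam : ℂ) * E
      + C ((μ * (l - 1) : ℝ) : ℂ) * (X * E) := by
    unfold heun
    ring
  rw [e]
  simp only [coeff_add, coeff_sub, e1, e2, e3, e4, coeff_C_mul, coeff_derivative]
  push_cast
  ring

lemma coeff_succ (l μ lam : ℝ) (E : ℂ[X]) (n : ℕ) :
    (heun l μ lam E).coeff (n + 1) =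
      ((n + 1) * n + (1 - l) * (n + 1) + lam) * E.coeff (n + 1) + μ * (n + 2) * E.coeff (n + 2)
        + μ * (l - 1 - n) * E.coeff n := by
  have e1 : (X ^ 2 * derivative (derivative E)).coeff (n + 1) = (n + 1) * n * E.coeff (n + 1) := by
    rw [pow_two, mul_assoc, coeff_X_mul]
    cases n with
    | zero => rw [coeff_X_mul_zero]; simp
    | succ m =>
      rw [coeff_X_mul, coeff_derivative, coeff_derivative]
      push_cast
      ring
  have e2 : (C ((1 - l : ℝ) : ℂ) * X * derivative E).coeff (n + 1) =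
      (1 - l) * (n + 1) * E.coeff (n + 1) := by
    rw [mul_assoc, coeff_C_mul, coeff_X_mul, coeff_derivative]
    push_cast
    ring
  have e3 : (C (μ : ℂ) * (X ^ 2 * derivative E)).coeff (n + 1) = μ * n * E.coeff n := by
    rw [coeff_C_mul, pow_two, mul_assoc, coeff_X_mul]
    cases n with
    | zero => rw [coeff_X_mul_zero]; simp
    | succ m =>
      rw [coeff_X_mul, coeff_derivative]
      push_cast
      ring
  have e4 : (C ((μ * (l - 1) : ℝ) : ℂ) * (X * E)).coeff (n + 1) = μ * (l - 1) * E.coeff n := by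
    rw [coeff_C_mul, coeff_X_mul]
    push_cast
    ring
  have e : heun l μ lam E = X ^ 2 * derivative (derivative E) + C ((1 - l : ℝ) : ℂ) * X * derivative E
      + C (μ : ℂ) * derivative E - C (μ : ℂ) * (X ^ 2 * derivative E) + C (lam : ℂ) * E
      + C ((μ * (l - 1) : ℝ) : ℂ) * (X * E) := by
    unfold heun
    ring
  rw [e]
  simp only [coeff_add, coeff_sub, e1, e2, e3, e4, coeff_C_mul, coeff_derivative]
  push_cast
  ring

/-- the degree of a polynomial solution -/
lemma natDegree_eq {l : ℕ} {μ lam : ℝ} (hμ : μ ≠ 0) {E : ℂ[X]} (hE : E ≠ 0)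
    (h : heun l μ lam E = 0) : E.natDegree + 1 = l := by
  have h1 := coeff_succ l μ lam E E.natDegree
  rw [h, Polynomial.coeff_zero, coeff_eq_zero_of_natDegree_lt (Nat.lt_succ_self _),
    coeff_eq_zero_of_natDegree_lt (show E.natDegree < E.natDegree + 2 by omega), mul_zero, mul_zero,
    zero_add, zero_add] at h1
  have h2 : E.coeff E.natDegree ≠ 0 := by
    rw [coeff_natDegree]
    exact leadingCoeff_ne_zero.2 hE
  have h3 := (mul_eq_zero.1 h1.symm).resolve_right h2
  have h4 := (mul_eq_zero.1 h3).resolve_left (by exact_mod_cast hμ)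
  have h5 : (l : ℂ) = E.natDegree + 1 := by
    push_cast at h4
    linear_combination h4
  exact_mod_cast h5.symm

/-- coefficients of a quadratic polynomial -/
lemma quad_coeff (a b c : ℂ) (n : ℕ) : (C a + C b * X + C c * X ^ 2).coeff n =
    if n = 0 then a else if n = 1 then b else if n = 2 then c else 0 := by
  rcases n with _ | _ | _ | n <;> simp [coeff_X, coeff_C, coeff_X_pow]

/-- the equation for a quadratic polynomial -/
lemma heun_quad {l μ lam : ℝ} {a b c : ℂ} (h0 : lam * a + μ * b = 0)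
    (h1 : (1 - l + lam) * b + μ * 2 * c + μ * (l - 1) * a = 0)
    (h2 : (2 + (1 - l) * 2 + lam) * c + μ * (l - 2) * b = 0)
    (h3 : μ * (l - 3) * c = 0) : heun l μ lam (C a + C b * X + C c * X ^ 2) = 0 := by
  ext n
  rw [Polynomial.coeff_zero]
  rcases n with _ | n
  · rw [coeff_zero, quad_coeff, quad_coeff]
    simpa using h0
  · rw [coeff_succ, quad_coeff, quad_coeff, quad_coeff]
    rcases n with _ | _ | _ | n
    · simp
      linear_combination h1
    · simp
      linear_combination h2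
    · simp only [Nat.reduceAdd, OfNat.ofNat_ne_zero, if_false, if_true, OfNat.ofNat_ne_one]
      norm_num
      have h3' : ((μ : ℂ) = 0 ∨ (l : ℂ) - 3 = 0) ∨ c = 0 := by
        simpa [mul_eq_zero] using h3
      rcases h3' with (h | h) | h
      · left; left; exact_mod_cast h
      · left; right; linear_combination h
      · right; exact h
    · simp

/-- the data in terms of `b = 1 - A²` -/
lemma lam_eq {ω A : ℝ} (hω : 0 < ω) :
    1 / (4 * ω ^ 2) - (A / (2 * ω)) ^ 2 = (1 - A ^ 2) / (4 * ω ^ 2) := by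
  field_simp
  ring

lemma one_mem {ω : ℝ} (hω : 0 < ω) : IsGreatest (polyPoints ω 1) 1 := by
  constructor
  · refine ⟨1, one_ne_zero, ?_⟩
    rw [lam_eq hω]
    simp [heun]
  · rintro A ⟨E, hE, h⟩
    by_contra hA
    push Not at hA
    have hμ : A / (2 * ω) ≠ 0 := by positivity
    have hd := natDegree_eq hμ hE h
    have h0 := coeff_zero (1 : ℕ) (A / (2 * ω)) (1 / (4 * ω ^ 2) - (A / (2 * ω)) ^ 2) E
    rw [h, Polynomial.coeff_zero, coeff_eq_zero_of_natDegree_lt (show E.natDegree < 1 by omega),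
      mul_zero, add_zero] at h0
    have h2 : E.coeff 0 ≠ 0 := by
      have : E.natDegree = 0 := by omega
      rw [← this, coeff_natDegree]
      exact leadingCoeff_ne_zero.2 hE
    have h3 := (mul_eq_zero.1 h0.symm).resolve_right h2
    have h4 : (1 / (4 * ω ^ 2) - (A / (2 * ω)) ^ 2) = 0 := by exact_mod_cast h3
    rw [lam_eq hω, div_eq_zero_iff] at h4
    rcases h4 with h4 | h4
    · nlinarith
    · have : 0 < 4 * ω ^ 2 := by positivity
      linarith

lemma two_mem {ω : ℝ} (hω : 0 < ω) : IsGreatest (polyPoints ω 2) (√(1 + 2 * ω)) := by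
  have hsq : √(1 + 2 * ω) ^ 2 = 1 + 2 * ω := Real.sq_sqrt (by linarith)
  have hpos : 0 < √(1 + 2 * ω) := Real.sqrt_pos.2 (by linarith)
  constructor
  · set A := √(1 + 2 * ω) with hA
    set μ := A / (2 * ω) with hμ
    have hμ0 : 0 < μ := by positivity
    set lam := 1 / (4 * ω ^ 2) - μ ^ 2 with hlam
    have hl : lam = -(1 / (2 * ω)) := by
      rw [hlam, hμ, lam_eq hω, hsq]
      field_simp
      ring
    have hm : μ ^ 2 = (1 + 2 * ω) / (4 * ω ^ 2) := by
      rw [hμ, div_pow, hsq]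
      ring
    have hrel : lam * (lam - 1) = μ ^ 2 := by
      rw [hl, hm]
      field_simp
      ring
    have hrelC : (lam : ℂ) * (lam - 1) = μ ^ 2 := by exact_mod_cast hrel
    refine ⟨C (μ : ℂ) + C (-(lam : ℂ)) * X + C 0 * X ^ 2, ?_, ?_⟩
    · intro h
      have h1 := congrArg (fun p => p.coeff 0) h
      simp only [quad_coeff, Polynomial.coeff_zero, if_true] at h1
      exact hμ0.ne' (by exact_mod_cast h1)
    · change heun ((2 : ℕ) : ℝ) μ lam _ = 0
      apply heun_quad
      · ring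
      · push_cast
        linear_combination -hrelC
      · push_cast
        ring
      · ring
  · rintro A ⟨E, hE, h⟩
    by_contra hA
    push Not at hA
    have hA0 : 0 < A := hpos.trans hA
    have hμ : A / (2 * ω) ≠ 0 := by positivity
    have hd := natDegree_eq hμ hE h
    set μ := A / (2 * ω) with hμd
    set lam := 1 / (4 * ω ^ 2) - μ ^ 2 with hlam
    have h0 := coeff_zero (2 : ℕ) μ lam E
    have h1 := coeff_succ (2 : ℕ) μ lam E 0
    rw [h, Polynomial.coeff_zero] at h0 h1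
    rw [coeff_eq_zero_of_natDegree_lt (show E.natDegree < 0 + 2 by omega)] at h1
    have h2 : E.coeff 1 ≠ 0 := by
      have : E.natDegree = 1 := by omega
      rw [← this, coeff_natDegree]
      exact leadingCoeff_ne_zero.2 hE
    push_cast at h0 h1
    have h3 : ((lam : ℂ) * (lam - 1) - μ ^ 2) * E.coeff 1 = 0 := by
      linear_combination (μ : ℂ) * h0 - (lam : ℂ) * h1
    have h4 := (mul_eq_zero.1 h3).resolve_right h2
    have h5 : lam * (lam - 1) - μ ^ 2 = 0 := by exact_mod_cast h4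
    have h6 : lam = (1 - A ^ 2) / (4 * ω ^ 2) := by rw [hlam, hμd, lam_eq hω]
    have h7 : μ ^ 2 = A ^ 2 / (4 * ω ^ 2) := by rw [hμd]; ring
    rw [h6, h7] at h5
    have h8 : (1 - A ^ 2) ^ 2 = 4 * ω ^ 2 := by
      field_simp at h5
      nlinarith
    have h9 : 1 + 2 * ω < A ^ 2 := by
      rw [← hsq]
      exact pow_lt_pow_left₀ hA hpos.le (by norm_num)
    nlinarith

lemma three_mem {ω κ : ℝ} (hω : 0 < ω) (hκ : 2 < κ) (hr : κ ^ 3 - 4 * κ = 8 * ω) :
    IsGreatest (polyPoints ω 3) (√(1 + 2 * ω * κ)) := by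
  have hin : 0 < 1 + 2 * ω * κ := by positivity
  have hsq : √(1 + 2 * ω * κ) ^ 2 = 1 + 2 * ω * κ := Real.sq_sqrt hin.le
  have hpos : 0 < √(1 + 2 * ω * κ) := Real.sqrt_pos.2 hin
  constructor
  · set A := √(1 + 2 * ω * κ) with hA
    set μ := A / (2 * ω) with hμ
    have hμ0 : 0 < μ := by positivity
    set lam := 1 / (4 * ω ^ 2) - μ ^ 2 with hlam
    have hl : lam = -(κ / (2 * ω)) := by
      rw [hlam, hμ, lam_eq hω, hsq]
      field_simp
      ring
    have hm : μ ^ 2 = (1 + 2 * ω * κ) / (4 * ω ^ 2) := by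
      rw [hμ, div_pow, hsq]
      ring
    have hrel : lam * (lam - 2) ^ 2 - 4 * μ ^ 2 * lam + 4 * μ ^ 2 = 0 := by
      rw [hl, hm]
      field_simp
      linear_combination (-1) * hr
    have hrelC : (lam : ℂ) * (lam - 2) ^ 2 - 4 * μ ^ 2 * lam + 4 * μ ^ 2 = 0 := by
      exact_mod_cast hrel
    refine ⟨C (((lam : ℂ) - 2) ^ 2 / 2 - μ ^ 2) + C (-((lam : ℂ) - 2) * μ) * X +
      C ((μ : ℂ) ^ 2) * X ^ 2, ?_, ?_⟩
    · intro h
      have h1 := congrArg (fun p => p.coeff 2) h
      simp only [quad_coeff, Polynomial.coeff_zero] at h1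
      norm_num at h1
      exact hμ0.ne' h1
    · change heun ((3 : ℕ) : ℝ) μ lam _ = 0
      apply heun_quad
      · linear_combination hrelC / 2
      · push_cast
        ring
      · push_cast
        ring
      · push_cast
        ring
  · rintro A ⟨E, hE, h⟩
    by_contra hA
    push Not at hA
    have hA0 : 0 < A := hpos.trans hA
    have hμ : A / (2 * ω) ≠ 0 := by positivity
    have hd := natDegree_eq hμ hE h
    set μ := A / (2 * ω) with hμd
    set lam := 1 / (4 * ω ^ 2) - μ ^ 2 with hlam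
    have h0 := coeff_zero (3 : ℕ) μ lam E
    have h1 := coeff_succ (3 : ℕ) μ lam E 0
    have h1' := coeff_succ (3 : ℕ) μ lam E 1
    rw [h, Polynomial.coeff_zero] at h0 h1 h1'
    rw [coeff_eq_zero_of_natDegree_lt (show E.natDegree < 1 + 2 by omega)] at h1'
    have h2 : E.coeff 2 ≠ 0 := by
      have : E.natDegree = 2 := by omega
      rw [← this, coeff_natDegree]
      exact leadingCoeff_ne_zero.2 hE
    push_cast at h0 h1 h1'
    norm_num at h0 h1 h1'
    have h3 : ((lam : ℂ) * (lam - 2) ^ 2 - 4 * μ ^ 2 * lam + 4 * μ ^ 2) * E.coeff 2 = 0 := by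
      linear_combination (-(lam : ℂ) * (lam - 2) + 2 * μ ^ 2) * h1' + (lam : ℂ) * μ * h1
        - 2 * μ ^ 2 * h0
    have h4 := (mul_eq_zero.1 h3).resolve_right h2
    have h5 : lam * (lam - 2) ^ 2 - 4 * μ ^ 2 * lam + 4 * μ ^ 2 = 0 := by exact_mod_cast h4
    have h6 : lam = (1 - A ^ 2) / (4 * ω ^ 2) := by rw [hlam, hμd, lam_eq hω]
    have h7 : μ ^ 2 = A ^ 2 / (4 * ω ^ 2) := by rw [hμd]; ring
    rw [h6, h7] at h5
    -- `A² = 1 + 2 ω k`
    obtain ⟨k, hk⟩ : ∃ k : ℝ, A ^ 2 = 1 + 2 * ω * k := ⟨(A ^ 2 - 1) / (2 * ω), by field_simp; ring⟩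
    rw [hk] at h5
    have h8 : k ^ 3 - 4 * k = 8 * ω := by
      field_simp at h5
      have : ω ^ 3 * (k ^ 3 - 4 * k - 8 * ω) = 0 := by nlinarith
      have h10 := (mul_eq_zero.1 this).resolve_left (by positivity)
      linarith
    have h9 : 1 + 2 * ω * κ < A ^ 2 := by
      rw [← hsq]
      exact pow_lt_pow_left₀ hA hpos.le (by norm_num)
    have h11 : κ < k := by
      rw [hk] at h9
      by_contra hc
      push Not at hc
      nlinarith
    nlinarith [mul_pos (sub_pos.2 h11) (sub_pos.2 hκ), sq_nonneg (k - κ), sq_nonneg (k + κ)]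

/-- **For every `ω > 0` the points `P₁, P₂, P₃` exist and are not collinear.** Here
`P_l = (l ω, A_l)` where `A_l` is the greatest `A` for which the equation has a nonzero polynomial
solution at the point `(l ω, A)`. Hence for no `ω > 0` do all the points `P_l` lie on one line. -/
theorem result (ω : ℝ) (hω : 0 < ω) :
    (∃ A₁ A₂ A₃ : ℝ, IsGreatest (polyPoints ω 1) A₁ ∧ IsGreatest (polyPoints ω 2) A₂ ∧
      IsGreatest (polyPoints ω 3) A₃ ∧
      ¬ Collinear ℝ {![ω, A₁], ![2 * ω, A₂], ![3 * ω, A₃]}) ∧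
    ∀ A : ℕ → ℝ, (∀ l, 1 ≤ l → IsGreatest (polyPoints ω l) (A l)) →
      ¬ Collinear ℝ {P : Fin 2 → ℝ | ∃ l : ℕ, 1 ≤ l ∧ P = ![l * ω, A l]} := by
  -- the number `κ`
  obtain ⟨κ, hκ2, hκ⟩ : ∃ κ : ℝ, 2 < κ ∧ κ ^ 3 - 4 * κ = 8 * ω := by
    have hc : ContinuousOn (fun k : ℝ => k ^ 3 - 4 * k) (Icc 2 (2 + 8 * ω)) := by fun_prop
    have h := intermediate_value_Icc (by linarith : (2 : ℝ) ≤ 2 + 8 * ω) hc
    have hmem : 8 * ω ∈ Icc ((2 : ℝ) ^ 3 - 4 * 2) ((2 + 8 * ω) ^ 3 - 4 * (2 + 8 * ω)) := by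
      constructor
      · linarith
      · nlinarith [pow_pos hω 2, pow_pos hω 3]
    obtain ⟨k, hk, hk2⟩ := h hmem
    simp only at hk2
    refine ⟨k, lt_of_le_of_ne hk.1 ?_, hk2⟩
    rintro rfl
    linarith
  have h1 := one_mem hω
  have h2 := two_mem hω
  have h3 := three_mem hω hκ2 hκ
  set r : ℝ := √(1 + 2 * ω) with hr
  set t : ℝ := √(1 + 2 * ω * κ) with ht
  have hr2 : r ^ 2 = 1 + 2 * ω := Real.sq_sqrt (by linarith)
  have ht2 : t ^ 2 = 1 + 2 * ω * κ := Real.sq_sqrt (by positivity)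
  have hr0 : 0 ≤ r := Real.sqrt_nonneg _
  have hr1 : 1 < r := by nlinarith
  have hne : t ≠ 2 * r - 1 := by
    intro h
    have hω' : 2 * ω = r ^ 2 - 1 := by linarith
    have e1 : (r ^ 2 - 1) * κ = 4 * r * (r - 1) := by
      have : (2 * r - 1) ^ 2 = 1 + (r ^ 2 - 1) * κ := by rw [← h, ht2, hω']
      linarith
    have e2 : (r + 1) * κ = 4 * r := by
      have : (r - 1) * ((r + 1) * κ - 4 * r) = 0 := by linear_combination e1
      have h5 := (mul_eq_zero.1 this).resolve_left (by linarith)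
      linarith
    have e3 : κ ^ 3 - 4 * κ = 4 * (r ^ 2 - 1) := by linarith
    have e4 : (r + 1) ^ 3 * (κ ^ 3 - 4 * κ) = (4 * r) ^ 3 - 4 * (r + 1) ^ 2 * (4 * r) := by
      rw [← e2]
      ring
    rw [e3] at e4
    have e5 : (r - 1) ^ 2 * (r ^ 3 + 5 * r ^ 2 - r - 1) = 0 := by
      linear_combination e4 / 4
    have e6 : 0 < (r - 1) ^ 2 * (r ^ 3 + 5 * r ^ 2 - r - 1) := by
      apply mul_pos
      · have : 0 < r - 1 := by linarith
        positivity
      · nlinarith [mul_pos (sub_pos.2 hr1) (sub_pos.2 hr1), pow_pos (show (0 : ℝ) < r by linarith) 3]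
    linarith
  have hcol : ¬ Collinear ℝ {![ω, (1 : ℝ)], ![2 * ω, r], ![3 * ω, t]} := by
    intro hcol
    rw [collinear_iff_of_mem (p₀ := ![ω, (1 : ℝ)]) (by simp)] at hcol
    obtain ⟨v, hv⟩ := hcol
    obtain ⟨a, ha⟩ := hv ![2 * ω, r] (by simp)
    obtain ⟨b, hb⟩ := hv ![3 * ω, t] (by simp)
    have ha0 := congrFun ha 0
    have ha1 := congrFun ha 1
    have hb0 := congrFun hb 0
    have hb1 := congrFun hb 1
    simp at ha0 ha1 hb0 hb1
    -- `a v₀ = ω`, `b v₀ = 2 ω`, so `b = 2 a`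
    have hv0 : v 0 ≠ 0 := by
      intro h0
      rw [h0] at ha0
      linarith
    have hab : b = 2 * a := by
      have : (b - 2 * a) * v 0 = 0 := by linear_combination 2 * ha0 - hb0
      have := (mul_eq_zero.1 this).resolve_right hv0
      linarith
    apply hne
    rw [hab] at hb1
    linarith
  refine ⟨⟨1, r, t, h1, h2, h3, hcol⟩, fun A hA hc => hcol ?_⟩
  have a1 : A 1 = 1 := (hA 1 le_rfl).unique h1
  have a2 : A 2 = r := (hA 2 (by norm_num)).unique h2
  have a3 : A 3 = t := (hA 3 (by norm_num)).unique h3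
  refine hc.subset ?_
  rintro P (rfl | rfl | rfl)
  · exact ⟨1, le_rfl, by rw [a1]; simp⟩
  · exact ⟨2, by norm_num, by rw [a2]; simp⟩
  · exact ⟨3, by norm_num, by rw [a3]; simp⟩

end Pool.Agent.Results.MP_e0279d_an.NeverCollinear
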